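import Mathlib

namespace Pool.Agent.Results.MP_6784b8_co.Broom

open SimpleGraph Finset

/-- the suspension of H -/
def susp {W : Type} (H : SimpleGraph W) : SimpleGraph (Option W) :=
  fromRel fun a b => a = none ∨ ∃ x y, a = some x ∧ b = some y ∧ H.Adj x y

/-- the function f(n,k) -/
def f (n k : ℕ) : ℕ := (antidiagonal n).sup fun p => p.1 * p.2 + (k - 1) * p.1 / 2

def T : SimpleGraph (Fin 7) :=
  fromEdgeSet {s(0, 2), s(0, 3), s(0, 4), s(1, 2), s(1, 5), s(1, 6)}

instance : DecidableRel T.Adj := fun _ _ => decidable_of_iff _ (fromEdgeSet_adj _).symm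

def G (j : ℕ) : SimpleGraph (Fin 2 × Fin j × Fin 2) where
  Adj u v := u.1 ≠ v.1 ∨ (u.2.1 = v.2.1 ∧ u.2.2 ≠ v.2.2)
  symm := ⟨fun _ _ h => h.imp Ne.symm fun h => ⟨h.1.symm, h.2.symm⟩⟩
  loopless := ⟨by simp⟩

instance (j : ℕ) : DecidableRel (G j).Adj := fun _ _ => inferInstanceAs (Decidable (_ ∨ _))

lemma deg (j : ℕ) (v) : 2 * j + 1 ≤ (G j).degree v := by
  have : insert (v.1, v.2.1, v.2.2 + 1) ({v.1 + 1} ×ˢ univ) ⊆ (G j).neighborFinset v := by
    have h : ∀ a : Fin 2, a ≠ a + 1 := by decide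
    intro u hu
    rw [mem_neighborFinset]
    rcases mem_insert.mp hu with rfl | hu
    · exact Or.inr ⟨rfl, h _⟩
    · exact Or.inl (mem_singleton.mp (mem_product.mp hu).1 ▸ h _)
  have := card_le_card this
  rw [card_insert_of_notMem (by simp)] at this
  simpa [mul_comm] using this

lemma uniq {j : ℕ} {u v w} (h : (G j).Adj u v) (h' : (G j).Adj u w) (p : v.1 = u.1)
    (q : w.1 = u.1) : v = w := by
  obtain ⟨a, b⟩ := h.resolve_left fun e => e p.symm
  obtain ⟨c, d⟩ := h'.resolve_left fun e => e q.symm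
  exact Prod.ext (p.trans q.symm) (Prod.ext (a.symm.trans c) (by omega))

lemma free (j : ℕ) : (susp T).Free (G j) := by
  rintro ⟨φ⟩
  have a : ∀ x, (G j).Adj (φ none) (φ (some x)) := fun x => φ.toHom.map_rel (by simp [susp])
  have b : ∀ x y, T.Adj x y → (G j).Adj (φ (some x)) (φ (some y)) := fun x y h =>
    φ.toHom.map_rel (by simp [susp, h, h.ne])
  have n : ∀ x y, x ≠ y → φ x ≠ φ y := fun x y h => φ.injective.ne h
  have key : ∀ c x y z : Fin 7, T.Adj c x → T.Adj c y → T.Adj c z → x ≠ y → x ≠ z → y ≠ z →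
      (φ (some c)).1 = (φ none).1 := fun c x y z h1 h2 h3 e1 e2 e3 => by
    by_contra hc
    have t : ∀ w : Fin 7, (φ (some w)).1 = (φ none).1 ∨ (φ (some w)).1 = (φ (some c)).1 :=
      fun w => by omega
    have u1 : ∀ v w, v ≠ w → (φ (some v)).1 = (φ none).1 → (φ (some w)).1 ≠ (φ none).1 :=
      fun v w e p q => n _ _ (by simpa) (uniq (a v) (a w) p q)
    have u2 : ∀ v w, T.Adj c v → T.Adj c w → v ≠ w → (φ (some v)).1 = (φ (some c)).1 →
        (φ (some w)).1 ≠ (φ (some c)).1 :=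
      fun v w hv hw e p q => n _ _ (by simpa) (uniq (b c v hv) (b c w hw) p q)
    rcases t x with p | p <;> rcases t y with q | q <;> rcases t z with r | r <;>
      first | exact u1 _ _ e1 p q | exact u1 _ _ e2 p r | exact u1 _ _ e3 q r |
        exact u2 _ _ h1 h2 e1 p q | exact u2 _ _ h1 h3 e2 p r | exact u2 _ _ h2 h3 e3 q r
  exact n _ _ (by decide) (uniq (a 0) (a 1)
    (key 0 2 3 4 (by decide) (by decide) (by decide) (by decide) (by decide) (by decide))
    (key 1 2 5 6 (by decide) (by decide) (by decide) (by decide) (by decide) (by decide)))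

/-- A tree with colour classes of sizes 2 and 5 whose suspension beats f(n,2) infinitely often. -/
theorem result : ∃ T : SimpleGraph (Fin 7), T.IsTree ∧
    (∃ c : T.Coloring (Fin 2), (c.colorClass 0).ncard = 2 ∧ (c.colorClass 1).ncard = 5) ∧
    ∀ N, ∃ n ≥ N, f n 2 < extremalNumber n (susp T) := by
  refine ⟨T, isTree_iff_connected_and_card.mpr ⟨by decide, ?_⟩,
    ⟨Coloring.mk ![0, 0, 1, 1, 1, 1, 1] (by decide), ?_, ?_⟩, fun N => ⟨4 * (N + 1), by omega, ?_⟩⟩
  · rw [Nat.card_eq_fintype_card, ← edgeFinset_card]; simp; decide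
  · refine Eq.trans (congrArg _ ?_) (Set.ncard_coe_finset ({0, 1} : Finset (Fin 7)))
    ext x; fin_cases x <;> simp [Coloring.colorClass] <;> decide
  · refine Eq.trans (congrArg _ ?_) (Set.ncard_coe_finset ({2, 3, 4, 5, 6} : Finset (Fin 7)))
    ext x; fin_cases x <;> simp [Coloring.colorClass] <;> decide
  · have h1 := card_edgeFinset_le_extremalNumber (free (N + 1))
    have h2 := (G (N + 1)).sum_degrees_eq_twice_card_edges
    have h3 := card_nsmul_le_sum univ _ _ fun v _ => deg (N + 1) v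
    simp only [card_univ, Fintype.card_prod, Fintype.card_fin, smul_eq_mul] at h1 h3
    rw [show 2 * ((N + 1) * 2) = 4 * (N + 1) by ring] at h1 h3
    refine (Finset.sup_lt_iff (by rw [bot_eq_zero]; nlinarith)).mpr fun p hp => ?_
    have e := mem_antidiagonal.mp hp
    have : 2 * ((2 - 1) * p.1 / 2) ≤ p.1 := by omega
    generalize (2 - 1) * p.1 / 2 = t at this ⊢
    zify at *
    have e' : (p.2 : ℤ) = 4 * (N + 1) - p.1 := by linarith
    rw [e']
    nlinarith [sq_nonneg (4 * ((p.1 : ℤ) - 2 * (N + 1)) - 1)]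

end Pool.Agent.Results.MP_6784b8_co.Broom
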